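/-
helper74. MRW: subdivisions of transitive tournaments by random walk bridges (MP_83008e_co).
Definitions and the statements of the modules. Page: K_MRW_helper74.md.
-/
import Mathlib

set_option autoImplicit false

namespace Pool.MRW

open Finset
open scoped Classical

/-- prepend a point to a path -/
def cns {V : Type} (x : V) (p : ℕ → V) : ℕ → V
  | 0 => x
  | n + 1 => p n

/-- `W P n x y F`: the sum of `F` over the walks of length `n` from `x` to `y`, weighted by the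
product of the `P`-values of the steps (the path is constant after time `n`). -/
noncomputable def W {V : Type} [Fintype V] (P : V → V → ℝ) : ℕ → V → V → ((ℕ → V) → ℝ) → ℝ
  | 0, x, y, F => if x = y then F (fun _ => x) else 0
  | n + 1, x, y, F => ∑ a, P x a * W P n a y (fun p => F (cns x p))

/-- the entries of the powers of the kernel -/
noncomputable def pw {V : Type} [Fintype V] (P : V → V → ℝ) (n : ℕ) (x y : V) : ℝ :=
  W P n x y (fun _ => 1)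

/-- substochastic kernel with a positive subinvariant measure -/
structure Ch {V : Type} [Fintype V] (P : V → V → ℝ) (π : V → ℝ) : Prop where
  nn : ∀ u w, 0 ≤ P u w
  row : ∀ u, ∑ w, P u w ≤ 1
  pos : ∀ u, 0 < π u
  inv : ∀ w, ∑ u, π u * P u w ≤ π w

/-- largest density of the power `n` -/
noncomputable def kap {V : Type} [Fintype V] (P : V → V → ℝ) (π : V → ℝ) (n : ℕ) : ℝ :=
  ⨆ e : V × V, pw P n e.1 e.2 / π e.2

/-- `F` depends on the coordinates `0, .., m` only -/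
def Loc {V : Type} (m : ℕ) (F : (ℕ → V) → ℝ) : Prop :=
  ∀ p p' : ℕ → V, (∀ s, s ≤ m → p s = p' s) → F p = F p'

/-- indicator of: in the last `R` steps before time `n`, the measure is at most `D * π y` -/
noncomputable def prd {V : Type} (π : V → ℝ) (D : ℝ) (R n : ℕ) (y : V) (p : ℕ → V) : ℝ :=
  if ∀ s, n ≤ s + R → s ≤ n → π (p s) ≤ D * π y then 1 else 0

/-- weight of the walks of length `n` from `x` to `y` with this property -/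
noncomputable def GG {V : Type} [Fintype V] (P : V → V → ℝ) (π : V → ℝ) (D : ℝ) (R n : ℕ)
    (x y : V) : ℝ :=
  W P n x y (prd π D R n y)

/-- a subdivision of the transitive tournament on `k` vertices (the form of S09809) -/
def TT {V : Type} (k : ℕ) (A : V → V → Prop) : Prop :=
  ∃ f : Fin k → V, Function.Injective f ∧
    ∃ L : Fin k → Fin k → ℕ, ∃ p : Fin k → Fin k → ℕ → V,
      (∀ i j : Fin k, i < j →
          p i j 0 = f i ∧ p i j (L i j) = f j ∧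
          (∀ t : ℕ, t < L i j → A (p i j t) (p i j (t + 1))) ∧
          (∀ s t : ℕ, s ≤ L i j → t ≤ L i j → p i j s = p i j t → s = t) ∧
          (∀ (t : ℕ) (m : Fin k), 0 < t → t < L i j → p i j t ≠ f m)) ∧
      (∀ i j i' j' : Fin k, i < j → i' < j' → (i ≠ i' ∨ j ≠ j') →
          ∀ s t : ℕ, 0 < s → s < L i j → 0 < t → t < L i' j' →
            p i j s ≠ p i' j' t)

/-! ### A: the functional `W` -/

/-- LIN: linear and monotone; values outside the walks from `x` to `y` do not matter -/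
def LINStmt : Prop :=
  ∀ (V : Type) [Fintype V] (P : V → V → ℝ) (n : ℕ) (x y : V),
    (∀ F F' : (ℕ → V) → ℝ, W P n x y (fun p => F p + F' p) = W P n x y F + W P n x y F') ∧
    (∀ (c : ℝ) (F : (ℕ → V) → ℝ), W P n x y (fun p => c * F p) = c * W P n x y F) ∧
    (∀ (ι : Type) (S : Finset ι) (F : ι → (ℕ → V) → ℝ),
      W P n x y (fun p => ∑ i ∈ S, F i p) = ∑ i ∈ S, W P n x y (F i)) ∧
    ((∀ u w, 0 ≤ P u w) → ∀ F F' : (ℕ → V) → ℝ,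
      (∀ p, p 0 = x → p n = y → F p ≤ F' p) → W P n x y F ≤ W P n x y F') ∧
    (∀ F F' : (ℕ → V) → ℝ,
      (∀ p, p 0 = x → p n = y → F p = F' p) → W P n x y F = W P n x y F')

/-- SPL: Markov property -/
def SPLStmt : Prop :=
  ∀ (V : Type) [Fintype V] (P : V → V → ℝ) (m n : ℕ) (x y : V) (F₁ F₂ : (ℕ → V) → ℝ),
    Loc m F₁ →
    W P (m + n) x y (fun p => F₁ p * F₂ (fun s => p (m + s))) =
      ∑ w, W P m x w F₁ * W P n w y F₂

/-- WEX: existence of a walk -/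
def WEXStmt : Prop :=
  ∀ (V : Type) [Fintype V] (P : V → V → ℝ) (n : ℕ) (x y : V) (F F' : (ℕ → V) → ℝ),
    (∀ u w, 0 ≤ P u w) → W P n x y F < W P n x y F' →
    ∃ p : ℕ → V, p 0 = x ∧ p n = y ∧ (∀ s, s < n → 0 < P (p s) (p (s + 1))) ∧ F p < F' p

/-! ### B: powers and densities -/

/-- PWB -/
def PWBStmt : Prop :=
  ∀ (V : Type) [Fintype V] (P : V → V → ℝ) (π : V → ℝ), Ch P π →
    (∀ n x y, 0 ≤ pw P n x y) ∧
    (∀ x y, pw P 1 x y = P x y) ∧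
    (∀ m n x y, pw P (m + n) x y = ∑ w, pw P m x w * pw P n w y) ∧
    (∀ n x, ∑ y, pw P n x y ≤ 1) ∧
    (∀ n y, ∑ x, π x * pw P n x y ≤ π y) ∧
    (∀ c : ℝ, (∀ u w, P u w ≤ c) → ∀ n, 1 ≤ n → ∀ x y, pw P n x y ≤ c) ∧
    (∀ (a : ℝ) (n m : ℕ), (∀ x y, pw P n x y ≤ a * π y) → ∀ x y, pw P (m + n) x y ≤ a * π y)

/-- KAP -/
def KAPStmt : Prop :=
  ∀ (V : Type) [Fintype V] [Nonempty V] (P : V → V → ℝ) (π : V → ℝ), Ch P π →
    (∀ n, 0 ≤ kap P π n) ∧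
    (∀ n x y, pw P n x y ≤ kap P π n * π y) ∧
    (∀ (n : ℕ) (a : ℝ), (∀ x y, pw P n x y ≤ a * π y) → kap P π n ≤ a) ∧
    (∀ n, ∃ x y, pw P n x y = kap P π n * π y) ∧
    (∀ m n, m ≤ n → kap P π n ≤ kap P π m)

/-! ### C: records -/

/-- REC -/
def RECStmt : Prop :=
  ∀ (f : ℕ → ℝ) (D : ℝ) (c R w : ℕ), (∀ s, 0 < f s) → 1 ≤ D → (∀ s s', f s ≤ D ^ c * f s') →
    ∃ θ, w + R ≤ θ ∧ θ ≤ w + (c + 2) * R ∧ ∀ s, θ ≤ s + R → s ≤ θ → f s ≤ D * f θ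

/-! ### D: the main walk -/

/-- BAD: weight of the walks with a bad pair at the times `r`, `r + m` -/
def BADStmt : Prop :=
  ∀ (V : Type) [Fintype V] (P : V → V → ℝ) (π : V → ℝ), Ch P π →
    ∀ (D : ℝ) (R r m s : ℕ) (v z : V) (a : ℝ), 0 ≤ a →
      W P (r + m + s) v z (fun p =>
        (if GG P π D R m (p r) (p (r + m)) < a * π (p (r + m)) then 1 else 0) *
          prd π D R m (p (r + m)) (fun i => p (r + i))) ≤ a * π z

/-- EQP: weight of the walks with equal points at the times `r`, `r + m` -/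
def EQPStmt : Prop :=
  ∀ (V : Type) [Fintype V] (P : V → V → ℝ) (π : V → ℝ), Ch P π →
    ∀ (r m s : ℕ) (v z : V) (c₁ τ : ℝ), 0 ≤ c₁ → 0 ≤ τ → (∀ x, pw P m x x ≤ c₁) →
      (∀ y, pw P s y z ≤ τ * π z) →
      W P (r + m + s) v z (fun p => if p r = p (r + m) then 1 else 0) ≤ c₁ * τ * π z

/-- MWK: the branch vertices -/
def MWKStmt : Prop :=
  ∀ (V : Type) [Fintype V] (P : V → V → ℝ) (π : V → ℝ), Ch P π →
    ∀ (k c R t : ℕ) (D c₁ τ ε K : ℝ) (v z : V),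
      1 ≤ D → (∀ u w, π u ≤ D ^ c * π w) → 1 ≤ R → R ≤ t → 0 ≤ c₁ → 0 < τ → 0 < ε → 0 < K →
      (∀ n, 1 ≤ n → ∀ x y, pw P n x y ≤ c₁) →
      (∀ n, t ≤ n → ∀ x y, pw P n x y ≤ τ * π y) →
      τ * π z < K * pw P ((k + 1) * (c + 6) * t) v z →
      (k : ℝ) ^ 2 * (((c + 2) * R + 1 : ℕ) : ℝ) ^ 2 * (ε + c₁) * K ≤ 1 →
      ∃ (y : Fin k → V) (θ : Fin k → ℕ), Function.Injective y ∧
        ∀ i j, i < j → θ i + 3 * t ≤ θ j ∧ θ j ≤ (k + 1) * (c + 6) * t ∧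
          ε * τ * π (y j) ≤ GG P π D R (θ j - θ i) (y i) (y j)

/-! ### E: hitting probabilities -/

/-- HIT -/
def HITStmt : Prop :=
  ∀ (V : Type) [Fintype V] (P : V → V → ℝ) (π : V → ℝ), Ch P π →
    ∀ (R t n : ℕ) (D c₁ τ ε : ℝ) (b : ℕ → ℝ) (x y : V),
      1 ≤ D → 1 ≤ R → R ≤ t → 3 * t ≤ n → 0 ≤ c₁ → 0 < τ → 0 < ε → (∀ r, 0 ≤ b r) →
      (∀ n, 1 ≤ n → ∀ x y, pw P n x y ≤ c₁) →
      (∀ n, t ≤ n → ∀ x y, pw P n x y ≤ τ * π y) →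
      ε * τ * π y ≤ GG P π D R n x y →
      (∀ r, 1 ≤ r → ∀ s, r ≤ s → ∀ x y, pw P s x y ≤ ε * b r) →
      (∀ r, 1 ≤ r → r ≤ R → D * c₁ ≤ ε * b r) →
      (∀ r, R < r → r < t → ∀ x y, pw P r x y * π x ≤ ε * b r * π y) →
      ∀ (s : ℕ) (w : V), 0 < s → s < n →
        W P n x y (fun p => (if p s = w then 1 else 0) * prd π D R n y p) ≤
          b (min s (n - s)) * GG P π D R n x y

/-- ENE: energy of two path measures -/
def ENEStmt : Prop :=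
  ∀ (V : Type) [Fintype V] (N n n' : ℕ) (b : ℕ → ℝ) (h h' : ℕ → V → ℝ),
    (∀ r, 0 ≤ b r) → (∀ s w, 0 ≤ h s w) → (∀ s w, 0 ≤ h' s w) →
    (∀ s, ∑ w, h s w ≤ 1) → (∀ s, ∑ w, h' s w ≤ 1) →
    (∀ s w, 0 < s → s < n → h s w ≤ b (min s (n - s))) →
    (∀ s w, 0 < s → s < n' → h' s w ≤ b (min s (n' - s))) → n ≤ N → n' ≤ N →
    (∑ w, (∑ s ∈ Ioo 0 n, h s w) * (∑ s ∈ Ioo 0 n', h' s w)
      ≤ 8 * ∑ r ∈ range N, (r : ℝ) * b r) ∧
    ∀ w, ∑ s ∈ Ioo 0 n, h s w ≤ 2 * ∑ r ∈ range N, (r : ℝ) * b r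

/-- SCA: the sum over the scales. `κ` decays by `M ^ (c + 4)` from scale to scale. -/
def SCAStmt : Prop :=
  ∀ (M c q J : ℕ) (κ : ℕ → ℝ) (m₀ : ℝ), 2 ≤ M → 1 ≤ q → 0 ≤ m₀ → (∀ n, 0 ≤ κ n) →
    (∀ m n, m ≤ n → κ n ≤ κ m) →
    κ 1 * m₀ ≤ (q : ℝ) ^ c / (q : ℝ) ^ 16 →
    (∀ l, l < J → (M : ℝ) ^ (c + 4) * κ (M ^ (l + 1)) ≤ κ (M ^ l)) →
    ∑ r ∈ (range (M ^ (J + 1))).filter (fun r => q / M < r), (r : ℝ) * (κ r * m₀)
      ≤ (M : ℝ) ^ (3 * c + 16) / (q : ℝ) ^ 12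

/-! ### F: choice of the walks -/

/-- GRD: greedy choice -/
def GRDStmt : Prop :=
  ∀ (ι V : Type) [Fintype ι] [Fintype V] (S : ι → (ℕ → V) → Prop)
    (Lf : ι → ((ℕ → V) → ℝ) → ℝ) (n : ι → ℕ) (Fb : ι → Finset V) (m : ℕ) (η : ℝ),
    (∀ e F F', Lf e (fun p => F p + F' p) = Lf e F + Lf e F') →
    (∀ e (c : ℝ) F, Lf e (fun p => c * F p) = c * Lf e F) →
    (∀ e F, (∀ p, 0 ≤ F p) → 0 ≤ Lf e F) →
    (∀ e F, (∀ p, 0 ≤ F p) → Lf e F < 1 → ∃ p, S e p ∧ F p < 1) →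
    (∀ e, (Fb e).card ≤ m) →
    (∀ e e', ∑ w, (∑ s ∈ Ioo 0 (n e), Lf e (fun p => if p s = w then 1 else 0)) *
        (∑ s ∈ Ioo 0 (n e'), Lf e' (fun p => if p s = w then 1 else 0)) ≤ η) →
    (∀ e w, ∑ s ∈ Ioo 0 (n e), Lf e (fun p => if p s = w then 1 else 0) ≤ η) →
    4 * (Fintype.card ι : ℝ) ^ 2 * η + 1 / 4 + m * η < 1 →
    ∃ p : ι → ℕ → V, (∀ e, S e (p e)) ∧
      (∀ e e', e ≠ e' → ∀ s s', 0 < s → s < n e → 0 < s' → s' < n e' → p e s ≠ p e' s') ∧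
      ∀ e s, 0 < s → s < n e → p e s ∉ Fb e

/-- EXT: shorten a walk to a path -/
def EXTStmt : Prop :=
  ∀ (V : Type) (A : V → V → Prop) (n : ℕ) (p : ℕ → V) (x y : V), x ≠ y → p 0 = x → p n = y →
    (∀ s, s < n → A (p s) (p (s + 1))) →
    ∃ (L : ℕ) (q : ℕ → V), q 0 = x ∧ q L = y ∧ (∀ t, t < L → A (q t) (q (t + 1))) ∧
      (∀ s t, s ≤ L → t ≤ L → q s = q t → s = t) ∧
      ∀ t, 0 < t → t < L → q t ≠ x ∧ q t ≠ y ∧ ∃ s, 0 < s ∧ s < n ∧ q t = p s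

/-! ### H: the core theorem -/

/-- COR -/
def CORStmt : Prop :=
  ∀ k c : ℕ, ∃ q₀ : ℕ, ∀ q : ℕ, q₀ ≤ q →
    ∀ (V : Type) [Fintype V] [Nonempty V] (P : V → V → ℝ) (π : V → ℝ), Ch P π →
      (∀ u w, P u w ≤ 1 / (q : ℝ) ^ 16) → (∀ u w, π u ≤ (q : ℝ) ^ c * π w) →
      (∃ J : ℕ, kap P π (((k + 1) * (c + 6)) ^ J) <
        (((k + 1) * (c + 6) : ℕ) : ℝ) ^ (c + 4) * kap P π (((k + 1) * (c + 6)) ^ (J + 1))) →
      TT k (fun u w => 0 < P u w)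

/-! ### I: stationary measures and the corollaries -/

/-- STA: a stochastic kernel has a stationary probability -/
def STAStmt : Prop :=
  ∀ (V : Type) [Fintype V] [Nonempty V] (P : V → V → ℝ), (∀ u w, 0 ≤ P u w) →
    (∀ u, ∑ w, P u w = 1) →
    ∃ π : V → ℝ, (∀ u, 0 ≤ π u) ∧ ∑ u, π u = 1 ∧ ∀ w, ∑ u, π u * P u w = π w

/-- SUR: survival in a set of large stationary measure -/
def SURStmt : Prop :=
  ∀ (V : Type) [Fintype V] (P : V → V → ℝ) (π : V → ℝ) (U : V → Prop) (a : ℝ) (n : ℕ),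
    (∀ u w, 0 ≤ P u w) → (∀ u, ∑ w, P u w = 1) → (∀ u, 0 ≤ π u) → ∑ u, π u = 1 →
    (∀ w, ∑ u, π u * P u w = π w) → ∑ u ∈ univ.filter (fun u => ¬ U u), π u ≤ a →
    1 - (n + 1) * a ≤
      ∑ u : {v // U v}, ∑ w : {v // U v},
        π u.1 * pw (fun u w : {v // U v} => P u.1 w.1) n u w

/-- TTM: transport -/
def TTMStmt : Prop :=
  ∀ (V V' : Type) (k : ℕ) (φ : V' → V) (A' : V' → V' → Prop) (A : V → V → Prop),
    Function.Injective φ → (∀ u w, A' u w → A (φ u) (φ w)) → TT k A' → TT k A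

/-- EUL: balanced arc weights -/
def EULStmt : Prop :=
  ∀ k B : ℕ, ∃ h : ℕ, ∀ (V : Type) [Fintype V] (G : Digraph V)
    (f : V → V → ℝ) (d : ℕ), h ≤ d → (∃ u w, f u w ≠ 0) →
    (∀ u w, 0 ≤ f u w) → (∀ u w, f u w ≠ 0 → u ≠ w ∧ G.Adj u w) →
    (∀ v, ∑ w, f v w = ∑ w, f w v) →
    (∀ u w, (d : ℝ) * f u w ≤ ∑ x, f u x) →
    (∀ u w, 0 < ∑ x, f w x → ∑ x, f u x ≤ (d : ℝ) ^ B * ∑ x, f w x) →
    TT k (fun u w => u ≠ w ∧ G.Adj u w)

/-- DNS: polynomial out-degree -/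
def DNSStmt : Prop :=
  ∀ k B : ℕ, ∃ h : ℕ, ∀ (V : Type) [Fintype V] [Nonempty V] (G : Digraph V) (d : ℕ), h ≤ d →
    (∀ v : V, d ≤ {w : V | w ≠ v ∧ G.Adj v w}.ncard) → Fintype.card V ≤ d ^ B →
    TT k (fun u w => u ≠ w ∧ G.Adj u w)

end Pool.MRW
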