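/-
helper74. MRW: explicit forms (the order of the quantifiers and the constants made explicit).
-/
import Pool.Agent.H74.MRW.Def

set_option autoImplicit false

namespace Pool.MRW

open Finset
open scoped Classical

/-- CORQ: the core theorem, explicit -/
def CORQStmt : Prop :=
  ∀ k c q : ℕ, 1 ≤ k → ((k + 1) * (c + 6)) ^ (4 * c + 33) ≤ q →
    ∀ (V : Type) [Fintype V] [Nonempty V] (P : V → V → ℝ) (π : V → ℝ), Ch P π →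
      (∀ u w, P u w ≤ 1 / (q : ℝ) ^ 16) → (∀ u w, π u ≤ (q : ℝ) ^ c * π w) →
      (∃ J : ℕ, kap P π (((k + 1) * (c + 6)) ^ J) <
        (((k + 1) * (c + 6) : ℕ) : ℝ) ^ (c + 4) * kap P π (((k + 1) * (c + 6)) ^ (J + 1))) →
      TT k (fun u w => 0 < P u w)

/-- EULQ: balanced arc weights, explicit -/
def EULQStmt : Prop :=
  ∀ k c q d : ℕ, 1 ≤ k → ((k + 1) * (c + 6)) ^ (4 * c + 33) ≤ q → q ^ 16 ≤ d →
    ∀ (V : Type) [Fintype V] (G : Digraph V) (f : V → V → ℝ), (∃ u w, f u w ≠ 0) →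
    (∀ u w, 0 ≤ f u w) → (∀ u w, f u w ≠ 0 → u ≠ w ∧ G.Adj u w) →
    (∀ v, ∑ w, f v w = ∑ w, f w v) →
    (∀ u w, (d : ℝ) * f u w ≤ ∑ x, f u x) →
    (∀ u w, 0 < ∑ x, f w x → ∑ x, f u x ≤ (q : ℝ) ^ c * ∑ x, f w x) →
    TT k (fun u w => u ≠ w ∧ G.Adj u w)

/-- DNSQ: large out-degree, explicit -/
def DNSQStmt : Prop :=
  ∀ k c q d : ℕ, 1 ≤ k → ((k + 1) * (c + 6)) ^ (4 * c + 33) ≤ q → q ^ 16 ≤ d →
    ∀ (V : Type) [Fintype V] [Nonempty V] (G : Digraph V),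
    (∀ v : V, d ≤ {w : V | w ≠ v ∧ G.Adj v w}.ncard) → d * Fintype.card V ≤ q ^ c →
    TT k (fun u w => u ≠ w ∧ G.Adj u w)

/-- NUM: the choice of `q` for given `k`, `B`, `d` -/
def NUMStmt : Prop :=
  ∃ C : ℕ, ∀ k B d : ℕ, 1 ≤ k → 1 ≤ B → (k * B + 1) ^ (C * B) ≤ d →
    ∃ q : ℕ, ((k + 1) * (32 * (B + 1) + 6)) ^ (4 * (32 * (B + 1)) + 33) ≤ q ∧ q ^ 16 ≤ d ∧
      d ^ (B + 1) ≤ q ^ (32 * (B + 1))

/-- EULF: final form for balanced arc weights -/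
def EULFStmt : Prop :=
  ∃ C : ℕ, ∀ k B d : ℕ, 1 ≤ k → 1 ≤ B → (k * B + 1) ^ (C * B) ≤ d →
    ∀ (V : Type) [Fintype V] (G : Digraph V) (f : V → V → ℝ), (∃ u w, f u w ≠ 0) →
    (∀ u w, 0 ≤ f u w) → (∀ u w, f u w ≠ 0 → u ≠ w ∧ G.Adj u w) →
    (∀ v, ∑ w, f v w = ∑ w, f w v) →
    (∀ u w, (d : ℝ) * f u w ≤ ∑ x, f u x) →
    (∀ u w, 0 < ∑ x, f w x → ∑ x, f u x ≤ (d : ℝ) ^ B * ∑ x, f w x) →
    TT k (fun u w => u ≠ w ∧ G.Adj u w)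

/-- DNSF: final form for polynomial out-degree -/
def DNSFStmt : Prop :=
  ∃ C : ℕ, ∀ k B d : ℕ, 1 ≤ k → 1 ≤ B → (k * B + 1) ^ (C * B) ≤ d →
    ∀ (V : Type) [Fintype V] [Nonempty V] (G : Digraph V),
    (∀ v : V, d ≤ {w : V | w ≠ v ∧ G.Adj v w}.ncard) → Fintype.card V ≤ d ^ B →
    TT k (fun u w => u ≠ w ∧ G.Adj u w)

end Pool.MRW
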