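/-
helper74. MRW, module COR: assembly of the core theorem.
-/
import Pool.Agent.H74.MRW.Def

set_option autoImplicit false

namespace Pool.MRW

open Finset
open scoped Classical

/-- from a system of walks to the subdivision -/
theorem tt_of_walks (hEXT : EXTStmt) {V : Type} (k : ℕ) (A : V → V → Prop)
    (y : Fin k → V) (hy : Function.Injective y) (n : Fin k → Fin k → ℕ)
    (p : Fin k → Fin k → ℕ → V)
    (hp : ∀ i j, i < j → p i j 0 = y i ∧ p i j (n i j) = y j ∧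
      ∀ s, s < n i j → A (p i j s) (p i j (s + 1)))
    (hd : ∀ i j i' j' : Fin k, i < j → i' < j' → (i ≠ i' ∨ j ≠ j') →
      ∀ s s', 0 < s → s < n i j → 0 < s' → s' < n i' j' → p i j s ≠ p i' j' s')
    (hf : ∀ i j : Fin k, i < j → ∀ m : Fin k, m ≠ i → m ≠ j → ∀ s, 0 < s → s < n i j →
      p i j s ≠ y m) : TT k A := by
  have hx : ∀ i j : Fin k, ∃ (L : ℕ) (q : ℕ → V), i < j → (q 0 = y i ∧ q L = y j ∧
      (∀ t, t < L → A (q t) (q (t + 1))) ∧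
      (∀ s t, s ≤ L → t ≤ L → q s = q t → s = t) ∧
      ∀ t, 0 < t → t < L → q t ≠ y i ∧ q t ≠ y j ∧ ∃ s, 0 < s ∧ s < n i j ∧ q t = p i j s) := by
    intro i j
    by_cases h : i < j
    · obtain ⟨h1, h2, h3⟩ := hp i j h
      obtain ⟨L, q, hq⟩ := hEXT V A (n i j) (p i j) (y i) (y j)
        (fun h' => (ne_of_lt h) (hy h')) h1 h2 h3
      exact ⟨L, q, fun _ => hq⟩
    · exact ⟨0, fun _ => y i, fun h' => absurd h' h⟩
  choose L q hq using hx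
  refine ⟨y, hy, L, q, ?_, ?_⟩
  · intro i j h
    obtain ⟨h1, h2, h3, h4, h5⟩ := hq i j h
    refine ⟨h1, h2, h3, h4, ?_⟩
    intro t m ht0 ht
    obtain ⟨h6, h7, s, hs0, hs, hqs⟩ := h5 t ht0 ht
    by_cases hm : m = i
    · rw [hm]; exact h6
    by_cases hm' : m = j
    · rw [hm']; exact h7
    rw [hqs]
    exact hf i j h m hm hm' s hs0 hs
  · intro i j i' j' h h' hne s t hs0 hs ht0 ht
    obtain ⟨_, _, _, _, h5⟩ := hq i j h
    obtain ⟨_, _, _, _, h5'⟩ := hq i' j' h'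
    obtain ⟨_, _, s₁, hs₁0, hs₁, e₁⟩ := h5 s hs0 hs
    obtain ⟨_, _, s₂, hs₂0, hs₂, e₂⟩ := h5' t ht0 ht
    rw [e₁, e₂]
    exact hd i j i' j' h h' hne s₁ s₂ hs₁0 hs₁ hs₂0 hs₂

/-- the probabilistic part: from the branch vertices to the walks -/
theorem cor_walks (hLIN : LINStmt) (hWEX : WEXStmt) (hHIT : HITStmt) (hENE : ENEStmt)
    (hGRD : GRDStmt) (hEXT : EXTStmt)
    {V : Type} [Fintype V] (P : V → V → ℝ) (π : V → ℝ) (hC : Ch P π)
    (k R t T : ℕ) (D c₁ τ ε : ℝ) (b : ℕ → ℝ) (y : Fin k → V) (θ : Fin k → ℕ)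
    (hy : Function.Injective y) (hD : 1 ≤ D) (hR : 1 ≤ R) (hRt : R ≤ t) (hc₁ : 0 ≤ c₁)
    (hτ : 0 < τ) (hε : 0 < ε) (hb : ∀ r, 0 ≤ b r)
    (h1 : ∀ n, 1 ≤ n → ∀ x y, pw P n x y ≤ c₁)
    (h2 : ∀ n, t ≤ n → ∀ x y, pw P n x y ≤ τ * π y)
    (hyθ : ∀ i j, i < j → θ i + 3 * t ≤ θ j ∧ θ j ≤ T ∧
      ε * τ * π (y j) ≤ GG P π D R (θ j - θ i) (y i) (y j))
    (hb0 : ∀ r, 1 ≤ r → ∀ s, r ≤ s → ∀ x y, pw P s x y ≤ ε * b r)
    (hb1 : ∀ r, 1 ≤ r → r ≤ R → D * c₁ ≤ ε * b r)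
    (hb2 : ∀ r, R < r → r < t → ∀ x y, pw P r x y * π x ≤ ε * b r * π y)
    (hsum : 4 * ((k : ℝ) ^ 2) ^ 2 * (8 * ∑ r ∈ range T, (r : ℝ) * b r) + 1 / 4 +
      k * (8 * ∑ r ∈ range T, (r : ℝ) * b r) < 1) :
    TT k (fun u w => 0 < P u w) := by
  obtain ⟨S, hS⟩ : ∃ S, S = ∑ r ∈ range T, (r : ℝ) * b r := ⟨_, rfl⟩
  rw [← hS] at hsum
  have hS0 : 0 ≤ S := by
    rw [hS]
    exact sum_nonneg (fun r _ => mul_nonneg (Nat.cast_nonneg r) (hb r))
  -- index type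
  let ι := {e : Fin k × Fin k // e.1 < e.2}
  have hcard : (Fintype.card ι : ℝ) ≤ (k : ℝ) ^ 2 := by
    have h := Fintype.card_subtype_le (fun e : Fin k × Fin k => e.1 < e.2)
    rw [Fintype.card_prod, Fintype.card_fin] at h
    have h' : ((Fintype.card ι : ℕ) : ℝ) ≤ ((k * k : ℕ) : ℝ) := by exact_mod_cast h
    rw [Nat.cast_mul] at h'
    rw [pow_two]; exact h'
  let nn : ι → ℕ := fun e => θ e.1.2 - θ e.1.1
  let Gv : ι → ℝ := fun e => GG P π D R (nn e) (y e.1.1) (y e.1.2)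
  have hG : ∀ e : ι, 0 < Gv e := fun e =>
    lt_of_lt_of_le (mul_pos (mul_pos hε hτ) (hC.pos _)) (hyθ e.1.1 e.1.2 e.2).2.2
  have hn3 : ∀ e : ι, 3 * t ≤ nn e := by
    intro e
    have := (hyθ e.1.1 e.1.2 e.2).1
    show 3 * t ≤ θ e.1.2 - θ e.1.1
    omega
  have hnT : ∀ e : ι, nn e ≤ T := by
    intro e
    have := (hyθ e.1.1 e.1.2 e.2).2.1
    show θ e.1.2 - θ e.1.1 ≤ T
    omega
  let pr : ι → (ℕ → V) → ℝ := fun e => prd π D R (nn e) (y e.1.2)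
  have hpr0 : ∀ e p, 0 ≤ pr e p := by
    intro e p
    show 0 ≤ prd π D R (nn e) (y e.1.2) p
    unfold prd
    split_ifs
    · exact zero_le_one
    · exact le_refl _
  let Lf : ι → ((ℕ → V) → ℝ) → ℝ := fun e F =>
    W P (nn e) (y e.1.1) (y e.1.2) (fun p => F p * pr e p) / Gv e
  have hW0 : ∀ (n : ℕ) (x z : V), W P n x z (fun _ => 0) = 0 := by
    intro n x z
    have := (hLIN V P n x z).2.1 0 (fun _ => 0)
    simpa using this
  have hadd : ∀ e F F', Lf e (fun p => F p + F' p) = Lf e F + Lf e F' := by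
    intro e F F'
    show W P (nn e) (y e.1.1) (y e.1.2) (fun p => (F p + F' p) * pr e p) / Gv e =
      W P (nn e) (y e.1.1) (y e.1.2) (fun p => F p * pr e p) / Gv e +
      W P (nn e) (y e.1.1) (y e.1.2) (fun p => F' p * pr e p) / Gv e
    rw [← add_div, ← (hLIN V P (nn e) (y e.1.1) (y e.1.2)).1]
    simp only [add_mul]
  have hmul : ∀ e (c : ℝ) F, Lf e (fun p => c * F p) = c * Lf e F := by
    intro e c F
    show W P (nn e) (y e.1.1) (y e.1.2) (fun p => (c * F p) * pr e p) / Gv e =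
      c * (W P (nn e) (y e.1.1) (y e.1.2) (fun p => F p * pr e p) / Gv e)
    rw [← mul_div_assoc, ← (hLIN V P (nn e) (y e.1.1) (y e.1.2)).2.1]
    simp only [mul_assoc]
  have hnn : ∀ e F, (∀ p, 0 ≤ F p) → 0 ≤ Lf e F := by
    intro e F hF
    have h := (hLIN V P (nn e) (y e.1.1) (y e.1.2)).2.2.2.1 hC.nn (fun _ => 0)
      (fun p => F p * pr e p) (fun p _ _ => mul_nonneg (hF p) (hpr0 e p))
    rw [hW0] at h
    exact div_nonneg h (hG e).le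
  let S' : ι → (ℕ → V) → Prop := fun e p => p 0 = y e.1.1 ∧ p (nn e) = y e.1.2 ∧
    ∀ s, s < nn e → 0 < P (p s) (p (s + 1))
  have hex : ∀ e F, (∀ p, 0 ≤ F p) → Lf e F < 1 → ∃ p, S' e p ∧ F p < 1 := by
    intro e F hF hlt
    have h : W P (nn e) (y e.1.1) (y e.1.2) (fun p => F p * pr e p) < Gv e := by
      rwa [div_lt_one (hG e)] at hlt
    obtain ⟨p, hp0, hp1, hp2, hp3⟩ := hWEX V P (nn e) (y e.1.1) (y e.1.2)
      (fun p => F p * pr e p) (pr e) hC.nn h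
    refine ⟨p, ⟨hp0, hp1, hp2⟩, ?_⟩
    have hpr : pr e p = 0 ∨ pr e p = 1 := by
      show prd π D R (nn e) (y e.1.2) p = 0 ∨ prd π D R (nn e) (y e.1.2) p = 1
      unfold prd
      split_ifs
      · exact Or.inr rfl
      · exact Or.inl rfl
    rcases hpr with h0 | h1'
    · simp only [h0, mul_zero, lt_self_iff_false] at hp3
    · simp only [h1', mul_one] at hp3
      exact hp3
  -- hitting
  let h : ι → ℕ → V → ℝ := fun e s w => Lf e (fun p => if p s = w then 1 else 0)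
  have hh0 : ∀ e s w, 0 ≤ h e s w := by
    intro e s w
    apply hnn
    intro p
    show (0 : ℝ) ≤ if p s = w then 1 else 0
    split_ifs
    · exact zero_le_one
    · exact le_refl _
  have hh1 : ∀ e s, ∑ w, h e s w ≤ 1 := by
    intro e s
    have : ∑ w, h e s w = 1 := by
      show ∑ w, (W P (nn e) (y e.1.1) (y e.1.2)
        (fun p => (if p s = w then 1 else 0) * pr e p) / Gv e) = 1
      rw [← sum_div, ← (hLIN V P (nn e) (y e.1.1) (y e.1.2)).2.2.1]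
      have hfun : (fun p : ℕ → V => ∑ w, (if p s = w then (1:ℝ) else 0) * pr e p) = pr e := by
        funext p
        rw [← sum_mul]
        rw [sum_ite_eq univ (p s) (fun _ => (1:ℝ))]
        simp
      rw [hfun]
      exact div_self (hG e).ne'
    exact this.le
  have hhb : ∀ e s w, 0 < s → s < nn e → h e s w ≤ b (min s (nn e - s)) := by
    intro e s w hs0 hs
    have := hHIT V P π hC R t (nn e) D c₁ τ ε b (y e.1.1) (y e.1.2) hD hR hRt (hn3 e) hc₁ hτ hε hb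
      h1 h2 (hyθ e.1.1 e.1.2 e.2).2.2 hb0 hb1 hb2 s w hs0 hs
    show W P (nn e) (y e.1.1) (y e.1.2)
        (fun p => (if p s = w then 1 else 0) * pr e p) / Gv e ≤ _
    rw [div_le_iff₀ (hG e)]
    exact this
  let Fb : ι → Finset V := fun e => (univ.filter (fun m : Fin k => m ≠ e.1.1 ∧ m ≠ e.1.2)).image y
  have hFb : ∀ e, (Fb e).card ≤ k := by
    intro e
    refine le_trans card_image_le (le_trans (card_le_univ _) ?_)
    rw [Fintype.card_fin]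
  obtain ⟨p, hp1, hp2, hp3⟩ := hGRD ι V S' Lf nn Fb k (8 * S) hadd hmul hnn hex hFb
    (fun e e' => by
      rw [hS]
      exact (hENE V T (nn e) (nn e') b (h e) (h e') hb (hh0 e) (hh0 e') (hh1 e) (hh1 e')
        (hhb e) (hhb e') (hnT e) (hnT e')).1)
    (fun e w => by
      have := (hENE V T (nn e) (nn e) b (h e) (h e) hb (hh0 e) (hh0 e) (hh1 e) (hh1 e)
        (hhb e) (hhb e) (hnT e) (hnT e)).2 w
      rw [← hS] at this
      calc ∑ s ∈ Ioo 0 (nn e), Lf e (fun p => if p s = w then 1 else 0) ≤ 2 * S := this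
        _ ≤ 8 * S := by linarith)
    (by
      have h0 : (0 : ℝ) ≤ Fintype.card ι := Nat.cast_nonneg _
      have h2' : (Fintype.card ι : ℝ) ^ 2 ≤ ((k : ℝ) ^ 2) ^ 2 := pow_le_pow_left₀ h0 hcard 2
      have h3 : 4 * (Fintype.card ι : ℝ) ^ 2 * (8 * S) ≤ 4 * ((k : ℝ) ^ 2) ^ 2 * (8 * S) :=
        mul_le_mul_of_nonneg_right (by linarith) (by linarith)
      linarith)
  -- assemble
  refine tt_of_walks hEXT k _ y hy (fun i j => θ j - θ i)
    (fun i j => if h : i < j then p ⟨(i, j), h⟩ else fun _ => y i) ?_ ?_ ?_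
  · intro i j hij
    simp only [hij, dif_pos]
    exact hp1 ⟨(i, j), hij⟩
  · intro i j i' j' hij hij' hne s s' hs0 hs hs0' hs'
    simp only [hij, hij', dif_pos]
    refine hp2 ⟨(i, j), hij⟩ ⟨(i', j'), hij'⟩ ?_ s s' hs0 hs hs0' hs'
    intro he
    have he' := congrArg Subtype.val he
    rcases hne with h | h
    · exact h (congrArg Prod.fst he')
    · exact h (congrArg Prod.snd he')
  · intro i j hij m hmi hmj s hs0 hs
    simp only [hij, dif_pos]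
    intro heq
    refine hp3 ⟨(i, j), hij⟩ s hs0 hs ?_
    rw [heq]
    exact mem_image_of_mem y (mem_filter.mpr ⟨mem_univ m, hmi, hmj⟩)

/-- numbers: the choice of `q` -/
theorem cor_num (k c q X : ℕ) (M : ℝ) (hM : 1 ≤ M) (hk : 1 ≤ k) (hq : 1 ≤ q)
    (hX1 : 1 ≤ X) (hX : X ≤ (c + 3) * q)
    (hq1 : (k : ℝ) ^ 2 * ((c : ℝ) + 3) ^ 2 * M ^ (c + 4) * 4 ≤ q)
    (hq2 : (4 * (k : ℝ) ^ 4 + k) * (8 * ((1 + M ^ (3 * c + 16)) *
      (4 * (k : ℝ) ^ 2 * ((c : ℝ) + 3) ^ 2 * M ^ (c + 4)))) * 4 ≤ q) :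
    (k : ℝ) ^ 2 * (X : ℝ) ^ 2 * (1 / (4 * (k : ℝ) ^ 2 * (X : ℝ) ^ 2 * M ^ (c + 4)) +
      1 / (q : ℝ) ^ 16) * M ^ (c + 4) ≤ 1 ∧
    ∀ S : ℝ, S ≤ (1 + M ^ (3 * c + 16)) / (q : ℝ) ^ 12 /
        (1 / (4 * (k : ℝ) ^ 2 * (X : ℝ) ^ 2 * M ^ (c + 4))) →
      4 * ((k : ℝ) ^ 2) ^ 2 * (8 * S) + 1 / 4 + k * (8 * S) < 1 := by
  have hk' : (1 : ℝ) ≤ k := by exact_mod_cast hk
  have hq' : (1 : ℝ) ≤ q := by exact_mod_cast hq
  have hX' : (1 : ℝ) ≤ X := by exact_mod_cast hX1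
  have hXq : (X : ℝ) ≤ ((c : ℝ) + 3) * q := by exact_mod_cast hX
  have hK : 1 ≤ M ^ (c + 4) := one_le_pow₀ hM
  have hK0 : 0 < M ^ (c + 4) := lt_of_lt_of_le one_pos hK
  have hN : 1 ≤ M ^ (3 * c + 16) := one_le_pow₀ hM
  have hX2 : (X : ℝ) ^ 2 ≤ ((c : ℝ) + 3) ^ 2 * (q : ℝ) ^ 2 := by
    rw [← mul_pow]
    exact pow_le_pow_left₀ (by linarith) hXq 2
  have hX0 : 0 < (X : ℝ) ^ 2 := by positivity
  have hk0 : 0 < (k : ℝ) ^ 2 := by positivity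
  have hq0 : 0 < (q : ℝ) := by linarith
  constructor
  · have e1 : (k : ℝ) ^ 2 * (X : ℝ) ^ 2 * (1 / (4 * (k : ℝ) ^ 2 * (X : ℝ) ^ 2 * M ^ (c + 4)) +
      1 / (q : ℝ) ^ 16) * M ^ (c + 4) = 1 / 4 +
      ((k : ℝ) ^ 2 * (X : ℝ) ^ 2 * M ^ (c + 4)) / (q : ℝ) ^ 16 := by
      field_simp
    rw [e1]
    have e2 : ((k : ℝ) ^ 2 * (X : ℝ) ^ 2 * M ^ (c + 4)) / (q : ℝ) ^ 16 ≤ 1 / 4 := by
      rw [div_le_iff₀ (by positivity)]
      have h1 : (k : ℝ) ^ 2 * (X : ℝ) ^ 2 * M ^ (c + 4) ≤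
          (k : ℝ) ^ 2 * (((c : ℝ) + 3) ^ 2 * (q : ℝ) ^ 2) * M ^ (c + 4) := by
        apply mul_le_mul_of_nonneg_right _ hK0.le
        exact mul_le_mul_of_nonneg_left hX2 hk0.le
      have h2 : (k : ℝ) ^ 2 * (((c : ℝ) + 3) ^ 2 * (q : ℝ) ^ 2) * M ^ (c + 4) =
          (k : ℝ) ^ 2 * ((c : ℝ) + 3) ^ 2 * M ^ (c + 4) * (q : ℝ) ^ 2 := by ring
      have h3 : (k : ℝ) ^ 2 * ((c : ℝ) + 3) ^ 2 * M ^ (c + 4) * (q : ℝ) ^ 2 ≤
          1 / 4 * q * (q : ℝ) ^ 2 := by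
        apply mul_le_mul_of_nonneg_right _ (by positivity)
        linarith
      have h4 : (q : ℝ) * (q : ℝ) ^ 2 ≤ (q : ℝ) ^ 16 := by
        have : (q : ℝ) * (q : ℝ) ^ 2 = (q : ℝ) ^ 3 := by ring
        rw [this]
        exact pow_le_pow_right₀ hq' (by norm_num)
      linarith
    linarith
  · intro S hS
    obtain ⟨C, hC⟩ : ∃ C, C = 8 * ((1 + M ^ (3 * c + 16)) *
      (4 * (k : ℝ) ^ 2 * ((c : ℝ) + 3) ^ 2 * M ^ (c + 4))) := ⟨_, rfl⟩
    rw [← hC] at hq2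
    have hC0 : 0 ≤ C := by rw [hC]; positivity
    have h8 : 8 * S ≤ C / q := by
      have e1 : (1 + M ^ (3 * c + 16)) / (q : ℝ) ^ 12 /
        (1 / (4 * (k : ℝ) ^ 2 * (X : ℝ) ^ 2 * M ^ (c + 4))) =
        (1 + M ^ (3 * c + 16)) * (4 * (k : ℝ) ^ 2 * (X : ℝ) ^ 2 * M ^ (c + 4)) /
          (q : ℝ) ^ 12 := by
        field_simp
      rw [e1] at hS
      have h1 : (1 + M ^ (3 * c + 16)) * (4 * (k : ℝ) ^ 2 * (X : ℝ) ^ 2 * M ^ (c + 4)) ≤
          (1 + M ^ (3 * c + 16)) * (4 * (k : ℝ) ^ 2 * (((c : ℝ) + 3) ^ 2 * (q : ℝ) ^ 2) *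
            M ^ (c + 4)) := by
        apply mul_le_mul_of_nonneg_left _ (by positivity)
        apply mul_le_mul_of_nonneg_right _ hK0.le
        exact mul_le_mul_of_nonneg_left hX2 (by positivity)
      have h2 : 8 * ((1 + M ^ (3 * c + 16)) * (4 * (k : ℝ) ^ 2 *
          (((c : ℝ) + 3) ^ 2 * (q : ℝ) ^ 2) * M ^ (c + 4))) = C * (q : ℝ) ^ 2 := by
        rw [hC]; ring
      calc 8 * S ≤ 8 * ((1 + M ^ (3 * c + 16)) * (4 * (k : ℝ) ^ 2 * (X : ℝ) ^ 2 *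
            M ^ (c + 4)) / (q : ℝ) ^ 12) := by linarith
        _ ≤ 8 * ((1 + M ^ (3 * c + 16)) * (4 * (k : ℝ) ^ 2 *
          (((c : ℝ) + 3) ^ 2 * (q : ℝ) ^ 2) * M ^ (c + 4))) / (q : ℝ) ^ 12 := by
            rw [← mul_div_assoc]
            apply div_le_div_of_nonneg_right _ (by positivity)
            linarith
        _ = C * (q : ℝ) ^ 2 / (q : ℝ) ^ 12 := by rw [h2]
        _ ≤ C / q := by
            rw [div_le_div_iff₀ (by positivity) hq0]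
            have h5 : (q : ℝ) ^ 2 * q ≤ (q : ℝ) ^ 12 := by
              have : (q : ℝ) ^ 2 * q = (q : ℝ) ^ 3 := by ring
              rw [this]
              exact pow_le_pow_right₀ hq' (by norm_num)
            calc C * (q : ℝ) ^ 2 * q = C * ((q : ℝ) ^ 2 * q) := by ring
              _ ≤ C * (q : ℝ) ^ 12 := mul_le_mul_of_nonneg_left h5 hC0
    have h9 : (4 * (k : ℝ) ^ 4 + k) * (C / q) ≤ 1 / 4 := by
      rw [← mul_div_assoc, div_le_iff₀ hq0]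
      linarith
    have h10 : 4 * ((k : ℝ) ^ 2) ^ 2 * (8 * S) + 1 / 4 + k * (8 * S) =
        (4 * (k : ℝ) ^ 4 + k) * (8 * S) + 1 / 4 := by ring
    rw [h10]
    have h11 : (4 * (k : ℝ) ^ 4 + k) * (8 * S) ≤ (4 * (k : ℝ) ^ 4 + k) * (C / q) :=
      mul_le_mul_of_nonneg_left h8 (by positivity)
    linarith


theorem t_cor (hLIN : LINStmt) (hPWB : PWBStmt) (hKAP : KAPStmt) (hWEX : WEXStmt)
    (hMWK : MWKStmt) (hHIT : HITStmt) (hENE : ENEStmt) (hSCA : SCAStmt)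
    (hGRD : GRDStmt) (hEXT : EXTStmt) : CORStmt := by
  intro k c
  obtain ⟨M, hM⟩ : ∃ M : ℕ, M = (k + 1) * (c + 6) := ⟨_, rfl⟩
  rw [← hM]
  have hM6 : 6 ≤ M := by
    rw [hM]
    calc 6 = 1 * 6 := by norm_num
      _ ≤ (k + 1) * (c + 6) := Nat.mul_le_mul (by omega) (by omega)
  obtain ⟨q₀, hq₀⟩ : ∃ q₀ : ℕ, q₀ = k ^ 2 * (c + 3) ^ 2 * M ^ (c + 4) * 4 +
      (4 * k ^ 4 + k) * (8 * ((1 + M ^ (3 * c + 16)) *
      (4 * k ^ 2 * (c + 3) ^ 2 * M ^ (c + 4)))) * 4 + 1 := ⟨_, rfl⟩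
  refine ⟨q₀, ?_⟩
  intro q hq V _ _ P π hC hP hratio hJ
  have hJ' : ∃ J : ℕ, kap P π (M ^ J) < (M : ℝ) ^ (c + 4) * kap P π (M ^ (J + 1)) := hJ
  rcases Nat.eq_zero_or_pos k with hk0 | hk1
  · subst hk0
    refine ⟨fun i => i.elim0, fun i => i.elim0, fun i => i.elim0, fun i => i.elim0, ?_, ?_⟩
    · intro i; exact i.elim0
    · intro i; exact i.elim0
  have hq1 : 1 ≤ q := by omega
  have hq1r : (1 : ℝ) ≤ q := by exact_mod_cast hq1
  have hqr0 : (0 : ℝ) < q := by linarith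
  have hMr : (1 : ℝ) ≤ M := by exact_mod_cast (by omega : 1 ≤ M)
  have hMr0 : (0 : ℝ) < M := by linarith
  have hb₁ : (k : ℝ) ^ 2 * ((c : ℝ) + 3) ^ 2 * (M : ℝ) ^ (c + 4) * 4 ≤ q := by
    have : k ^ 2 * (c + 3) ^ 2 * M ^ (c + 4) * 4 ≤ q := by omega
    exact_mod_cast this
  have hb₂ : (4 * (k : ℝ) ^ 4 + k) * (8 * ((1 + (M : ℝ) ^ (3 * c + 16)) *
      (4 * (k : ℝ) ^ 2 * ((c : ℝ) + 3) ^ 2 * (M : ℝ) ^ (c + 4)))) * 4 ≤ q := by
    have : (4 * k ^ 4 + k) * (8 * ((1 + M ^ (3 * c + 16)) *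
      (4 * k ^ 2 * (c + 3) ^ 2 * M ^ (c + 4)))) * 4 ≤ q := by omega
    exact_mod_cast this
  obtain ⟨hp1, hp2, hp3, hp4, hp5, hp6, hp7⟩ := hPWB V P π hC
  obtain ⟨hk1', hk2, hk3, hk4, hk5⟩ := hKAP V P π hC
  -- minimal flat scale
  obtain ⟨J, hJf, hJm⟩ : ∃ J : ℕ, kap P π (M ^ J) < (M : ℝ) ^ (c + 4) * kap P π (M ^ (J + 1)) ∧
      ∀ l, l < J → (M : ℝ) ^ (c + 4) * kap P π (M ^ (l + 1)) ≤ kap P π (M ^ l) :=
    ⟨Nat.find hJ', Nat.find_spec hJ', fun l hl => not_lt.mp (Nat.find_min hJ' hl)⟩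
  obtain ⟨K, hK⟩ : ∃ K : ℝ, K = (M : ℝ) ^ (c + 4) := ⟨_, rfl⟩
  have hK0 : 0 < K := by rw [hK]; positivity
  obtain ⟨t, ht⟩ : ∃ t : ℕ, t = M ^ J := ⟨_, rfl⟩
  have ht1 : 1 ≤ t := by rw [ht]; exact Nat.one_le_pow _ _ (by omega)
  have hT : M ^ (J + 1) = (k + 1) * (c + 6) * t := by rw [ht, ← hM, pow_succ]; ring
  obtain ⟨τ, hτ⟩ : ∃ τ : ℝ, τ = kap P π t := ⟨_, rfl⟩
  have hτ0 : 0 < τ := by
    have h1 : 0 < kap P π (M ^ (J + 1)) := by
      have h2 : 0 < (M : ℝ) ^ (c + 4) * kap P π (M ^ (J + 1)) :=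
        lt_of_le_of_lt (hk1' _) hJf
      exact (mul_pos_iff_of_pos_left (by positivity)).mp h2
    rw [hτ, ht]
    exact lt_of_lt_of_le h1 (hk5 _ _ (Nat.pow_le_pow_right (by omega) (by omega)))
  obtain ⟨v, z, hvz⟩ := hk4 (M ^ (J + 1))
  have hvz' : τ * π z < K * pw P ((k + 1) * (c + 6) * t) v z := by
    rw [← hT, hvz, hK, hτ, ht, ← mul_assoc]
    exact mul_lt_mul_of_pos_right hJf (hC.pos z)
  -- the scale of the records
  obtain ⟨l, hl1, hl2⟩ : ∃ l : ℕ, M ^ l ≤ q ∧ q < M ^ (l + 1) := by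
    refine ⟨Nat.log M q, Nat.pow_log_le_self M (by omega), Nat.lt_pow_succ_log_self (by omega) q⟩
  obtain ⟨s₀, hs₀⟩ : ∃ s₀ : ℕ, s₀ = M ^ l := ⟨_, rfl⟩
  have hs₀1 : 1 ≤ s₀ := by rw [hs₀]; exact Nat.one_le_pow _ _ (by omega)
  have hs₀q : s₀ ≤ q := by rw [hs₀]; exact hl1
  have hqs₀ : q / M ≤ s₀ := by
    have : q / M < M ^ l := by
      rw [Nat.div_lt_iff_lt_mul (by omega)]
      rwa [pow_succ] at hl2
    rw [hs₀]; exact this.le
  obtain ⟨R, hR⟩ : ∃ R : ℕ, R = min t s₀ := ⟨_, rfl⟩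
  have hR1 : 1 ≤ R := by rw [hR]; exact le_min ht1 hs₀1
  have hRt : R ≤ t := by rw [hR]; exact min_le_left _ _
  have hRs : R ≤ s₀ := by rw [hR]; exact min_le_right _ _
  obtain ⟨X, hX⟩ : ∃ X : ℕ, X = (c + 2) * R + 1 := ⟨_, rfl⟩
  have hX1 : 1 ≤ X := by omega
  have hXq : X ≤ (c + 3) * q := by
    rw [hX]
    have h1 : (c + 2) * R ≤ (c + 2) * q := Nat.mul_le_mul_left _ (le_trans hRs hs₀q)
    calc (c + 2) * R + 1 ≤ (c + 2) * q + q := by omega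
      _ = (c + 3) * q := by ring
  obtain ⟨hn1, hn2⟩ := cor_num k c q X (M : ℝ) hMr hk1 hq1 hX1 hXq hb₁ hb₂
  obtain ⟨ε, hε⟩ : ∃ ε : ℝ, ε = 1 / (4 * (k : ℝ) ^ 2 * (X : ℝ) ^ 2 * (M : ℝ) ^ (c + 4)) :=
    ⟨_, rfl⟩
  rw [← hε] at hn1 hn2
  have hXr : (0 : ℝ) < X := by exact_mod_cast hX1
  have hkr : (0 : ℝ) < k := by exact_mod_cast hk1
  have hε0 : 0 < ε := by rw [hε]; positivity
  obtain ⟨D, hD⟩ : ∃ D : ℝ, D = (q : ℝ) ^ 2 := ⟨_, rfl⟩
  have hD1 : 1 ≤ D := by rw [hD]; exact one_le_pow₀ hq1r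
  obtain ⟨c₁, hc₁⟩ : ∃ c₁ : ℝ, c₁ = 1 / (q : ℝ) ^ 16 := ⟨_, rfl⟩
  have hc₁0 : 0 ≤ c₁ := by rw [hc₁]; positivity
  have h1 : ∀ n, 1 ≤ n → ∀ x y, pw P n x y ≤ c₁ :=
    hp6 c₁ (fun u w => by rw [hc₁]; exact hP u w)
  have h2 : ∀ n, t ≤ n → ∀ x y, pw P n x y ≤ τ * π y := by
    intro n hn x y
    refine le_trans (hk2 n x y) (mul_le_mul_of_nonneg_right ?_ (hC.pos y).le)
    rw [hτ]
    exact hk5 t n hn
  have hratio' : ∀ u w, π u ≤ D ^ c * π w := by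
    intro u w
    refine le_trans (hratio u w) (mul_le_mul_of_nonneg_right ?_ (hC.pos w).le)
    rw [hD, ← pow_mul]
    exact pow_le_pow_right₀ hq1r (by omega)
  obtain ⟨y, θ, hy, hyθ⟩ := hMWK V P π hC k c R t D c₁ τ ε K v z hD1 hratio' hR1 hRt hc₁0 hτ0 hε0 hK0
    h1 h2 hvz' (by
      rw [hX] at hn1
      rw [hc₁, hK]
      exact hn1)
  -- largest value of the measure
  obtain ⟨m₀, hm₀, hm₁⟩ : ∃ m₀ : ℝ, (∀ u, π u ≤ m₀) ∧ ∀ w, m₀ ≤ (q : ℝ) ^ c * π w := by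
    obtain ⟨u, hu⟩ := Finite.exists_max π
    exact ⟨π u, hu, fun w => hratio u w⟩
  have hm0 : 0 ≤ m₀ := le_trans (hC.pos v).le (hm₀ v)
  have hkm : kap P π 1 * m₀ ≤ (q : ℝ) ^ c / (q : ℝ) ^ 16 := by
    obtain ⟨u, w, huw⟩ := hk4 1
    rw [hp2] at huw
    have h3 : kap P π 1 * m₀ ≤ kap P π 1 * ((q : ℝ) ^ c * π w) :=
      mul_le_mul_of_nonneg_left (hm₁ w) (hk1' 1)
    have h4 : kap P π 1 * ((q : ℝ) ^ c * π w) = (q : ℝ) ^ c * P u w := by rw [huw]; ring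
    rw [h4] at h3
    refine le_trans h3 ?_
    rw [div_eq_mul_one_div]
    exact mul_le_mul_of_nonneg_left (hP u w) (by positivity)
  obtain ⟨b, hb⟩ : ∃ b : ℕ → ℝ, b = fun r => if r ≤ s₀ then D * c₁ / ε else
      kap P π r * m₀ / ε := ⟨_, rfl⟩
  have hbs : ∀ r, r ≤ s₀ → ε * b r = D * c₁ := by
    intro r hr
    rw [hb]
    simp only [hr, if_true]
    field_simp
  have hbl : ∀ r, ¬ r ≤ s₀ → ε * b r = kap P π r * m₀ := by
    intro r hr
    rw [hb]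
    simp only [hr, if_false]
    field_simp
  have hb0 : ∀ r, 0 ≤ b r := by
    intro r
    rw [hb]
    dsimp only
    split_ifs
    · exact div_nonneg (mul_nonneg (by linarith) hc₁0) hε0.le
    · exact div_nonneg (mul_nonneg (hk1' r) hm0) hε0.le
  refine cor_walks hLIN hWEX hHIT hENE hGRD hEXT P π hC k R t (M ^ (J + 1)) D c₁ τ ε b y θ hy hD1 hR1
    hRt hc₁0 hτ0 hε0 hb0 h1 h2 ?_ ?_ ?_ ?_ ?_
  · intro i j hij
    rw [hT]
    exact hyθ i j hij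
  · intro r hr s hrs x y'
    by_cases h : r ≤ s₀
    · rw [hbs r h]
      have h3 : c₁ ≤ D * c₁ := le_mul_of_one_le_left hc₁0 hD1
      exact le_trans (h1 s (by omega) x y') h3
    · rw [hbl r h]
      refine le_trans (hk2 s x y') ?_
      exact mul_le_mul (hk5 r s hrs) (hm₀ y') (hC.pos y').le (hk1' r)
  · intro r _ hr
    rw [hbs r (le_trans hr hRs)]
  · intro r hr hrt x y'
    have h : ¬ r ≤ s₀ := by
      intro h'
      have : R = s₀ ∨ R = t := by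
        rw [hR]
        rcases min_choice t s₀ with h'' | h''
        · exact Or.inr h''
        · exact Or.inl h''
      omega
    rw [hbl r h]
    calc pw P r x y' * π x ≤ (kap P π r * π y') * m₀ :=
          mul_le_mul (hk2 r x y') (hm₀ x) (hC.pos x).le
            (mul_nonneg (hk1' r) (hC.pos y').le)
      _ = kap P π r * m₀ * π y' := by ring
  · apply hn2
    -- the sum of r * b r
    rw [le_div_iff₀ hε0]
    have hsplit : (∑ r ∈ range (M ^ (J + 1)), (r : ℝ) * b r) * ε =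
        ∑ r ∈ range (M ^ (J + 1)), (r : ℝ) * (ε * b r) := by
      rw [sum_mul]
      apply sum_congr rfl
      intro r _
      ring
    rw [hsplit]
    have h3 : ∑ r ∈ range (M ^ (J + 1)), (r : ℝ) * (ε * b r) ≤
        ∑ r ∈ range (q + 1), (if r ≤ s₀ then (r : ℝ) * (D * c₁) else 0) +
        ∑ r ∈ (range (M ^ (J + 1))).filter (fun r => q / M < r), (r : ℝ) * (kap P π r * m₀) := by
      have h4 : ∑ r ∈ range (M ^ (J + 1)), (r : ℝ) * (ε * b r) =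
          ∑ r ∈ range (M ^ (J + 1)), (if r ≤ s₀ then (r : ℝ) * (D * c₁) else 0) +
          ∑ r ∈ range (M ^ (J + 1)), (if r ≤ s₀ then 0 else (r : ℝ) * (kap P π r * m₀)) := by
        rw [← sum_add_distrib]
        apply sum_congr rfl
        intro r _
        by_cases h : r ≤ s₀
        · rw [hbs r h]; simp only [h, if_true]; ring
        · rw [hbl r h]; simp only [h, if_false]; ring
      rw [h4]
      apply add_le_add
      · rw [← sum_filter, ← sum_filter]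
        apply sum_le_sum_of_subset_of_nonneg
        · intro r hr
          rw [mem_filter] at hr ⊢
          exact ⟨mem_range.mpr (by omega), hr.2⟩
        · intro r _ _
          have hDc : 0 ≤ D * c₁ := mul_nonneg (by linarith) hc₁0
          exact mul_nonneg (Nat.cast_nonneg r) hDc
      · rw [sum_filter]
        apply sum_le_sum
        intro r _
        have hnn' : 0 ≤ (r : ℝ) * (kap P π r * m₀) :=
          mul_nonneg (Nat.cast_nonneg r) (mul_nonneg (hk1' r) hm0)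
        by_cases h : r ≤ s₀
        · simp only [h, if_true]
          split_ifs
          · exact hnn'
          · exact le_refl _
        · have h' : q / M < r := by omega
          simp only [h, h', if_false, if_true]
          exact le_refl _
    refine le_trans h3 ?_
    have h5 := hSCA M c q J (kap P π) m₀ (by omega) hq1 hm0 hk1' hk5 hkm hJm
    have h6 : ∑ r ∈ range (q + 1), (if r ≤ s₀ then (r : ℝ) * (D * c₁) else 0) ≤
        1 / (q : ℝ) ^ 12 := by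
      have h7 : ∀ r ∈ range (q + 1), (if r ≤ s₀ then (r : ℝ) * (D * c₁) else 0) ≤
          (r : ℝ) * (D * c₁) := by
        intro r _
        have hDc : 0 ≤ D * c₁ := mul_nonneg (by linarith) hc₁0
        split_ifs
        · exact le_refl _
        · exact mul_nonneg (Nat.cast_nonneg r) hDc
      refine le_trans (sum_le_sum h7) ?_
      rw [← sum_mul]
      have h8 : ∑ r ∈ range (q + 1), (r : ℝ) ≤ (q : ℝ) ^ 2 := by
        have h9 : (∑ r ∈ range (q + 1), r) * 2 = (q + 1) * q := by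
          rw [sum_range_id_mul_two]; simp
        have h10 : (∑ r ∈ range (q + 1), r) ≤ q ^ 2 := by nlinarith
        calc ∑ r ∈ range (q + 1), (r : ℝ) = ((∑ r ∈ range (q + 1), r : ℕ) : ℝ) := by
              rw [Nat.cast_sum]
          _ ≤ ((q ^ 2 : ℕ) : ℝ) := by exact_mod_cast h10
          _ = (q : ℝ) ^ 2 := by norm_cast
      calc (∑ r ∈ range (q + 1), (r : ℝ)) * (D * c₁) ≤ (q : ℝ) ^ 2 * (D * c₁) :=
            mul_le_mul_of_nonneg_right h8 (mul_nonneg (by linarith) hc₁0)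
        _ = 1 / (q : ℝ) ^ 12 := by
            rw [hD, hc₁]
            field_simp
    calc _ ≤ 1 / (q : ℝ) ^ 12 + (M : ℝ) ^ (3 * c + 16) / (q : ℝ) ^ 12 := add_le_add h6 h5
      _ = (1 + (M : ℝ) ^ (3 * c + 16)) / (q : ℝ) ^ 12 := by rw [add_div]

end Pool.MRW
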