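/-
helper74. MRW, module CORQ: the core theorem, explicit form.
-/
import Pool.Agent.H74.MRW.Def2
import Pool.Agent.H74.MRW.COR

set_option autoImplicit false

namespace Pool.MRW

open Finset
open scoped Classical

theorem corq_num (k c q M : ℕ) (hM : M = (k + 1) * (c + 6)) (hk : 1 ≤ k)
    (hq : M ^ (4 * c + 33) ≤ q) :
    k ^ 2 * (c + 3) ^ 2 * M ^ (c + 4) * 4 ≤ q ∧
    (4 * k ^ 4 + k) * (8 * ((1 + M ^ (3 * c + 16)) *
      (4 * k ^ 2 * (c + 3) ^ 2 * M ^ (c + 4)))) * 4 ≤ q ∧ 1 ≤ q := by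
  have hM6 : 6 ≤ M := by
    rw [hM]
    calc 6 = 1 * 6 := by norm_num
      _ ≤ (k + 1) * (c + 6) := Nat.mul_le_mul (by omega) (by omega)
  have hkM : k ≤ M := by
    rw [hM]
    calc k ≤ (k + 1) * 1 := by omega
      _ ≤ (k + 1) * (c + 6) := Nat.mul_le_mul_left _ (by omega)
  have hkc : k * (c + 3) ≤ M := by
    rw [hM]
    exact Nat.mul_le_mul (by omega) (by omega)
  have h2 : k ^ 2 * (c + 3) ^ 2 ≤ M ^ 2 := by
    rw [← mul_pow]
    exact Nat.pow_le_pow_left hkc 2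
  have hp : ∀ i, 1 ≤ M ^ i := fun i => Nat.one_le_pow _ _ (by omega)
  have h3 : k ^ 2 * (c + 3) ^ 2 * M ^ (c + 4) * 4 ≤ M ^ (c + 7) := by
    calc k ^ 2 * (c + 3) ^ 2 * M ^ (c + 4) * 4 ≤ M ^ 2 * M ^ (c + 4) * M := by
          apply Nat.mul_le_mul (Nat.mul_le_mul h2 (le_refl _)) (by omega)
      _ = M ^ (c + 7) := by ring
  have h4 : 4 * k ^ 4 + k ≤ M ^ 5 := by
    have h5 : k ≤ k ^ 4 := Nat.le_self_pow (by norm_num) k
    calc 4 * k ^ 4 + k ≤ 5 * k ^ 4 := by omega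
      _ ≤ M * M ^ 4 := Nat.mul_le_mul (by omega) (Nat.pow_le_pow_left hkM 4)
      _ = M ^ 5 := by ring
  have h6 : 1 + M ^ (3 * c + 16) ≤ M ^ (3 * c + 17) := by
    have h7 := hp (3 * c + 16)
    calc 1 + M ^ (3 * c + 16) ≤ M ^ (3 * c + 16) + M ^ (3 * c + 16) := by omega
      _ = M ^ (3 * c + 16) * 2 := by ring
      _ ≤ M ^ (3 * c + 16) * M := Nat.mul_le_mul_left _ (by omega)
      _ = M ^ (3 * c + 17) := by ring
  have h8 : 4 * k ^ 2 * (c + 3) ^ 2 * M ^ (c + 4) ≤ M ^ (c + 7) := by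
    calc 4 * k ^ 2 * (c + 3) ^ 2 * M ^ (c + 4) = k ^ 2 * (c + 3) ^ 2 * M ^ (c + 4) * 4 := by ring
      _ ≤ M ^ (c + 7) := h3
  have hq1 : 1 ≤ q := le_trans (hp _) hq
  refine ⟨?_, ?_, hq1⟩
  · exact le_trans h3 (le_trans (Nat.pow_le_pow_right (by omega) (by omega)) hq)
  · refine le_trans ?_ hq
    calc (4 * k ^ 4 + k) * (8 * ((1 + M ^ (3 * c + 16)) *
          (4 * k ^ 2 * (c + 3) ^ 2 * M ^ (c + 4)))) * 4
        ≤ M ^ 5 * (M ^ 2 * (M ^ (3 * c + 17) * M ^ (c + 7))) * M := by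
          apply Nat.mul_le_mul _ (by omega)
          apply Nat.mul_le_mul h4
          apply Nat.mul_le_mul _ (Nat.mul_le_mul h6 h8)
          calc 8 ≤ 6 ^ 2 := by norm_num
            _ ≤ M ^ 2 := Nat.pow_le_pow_left hM6 2
      _ = M ^ (4 * c + 32) := by ring
      _ ≤ M ^ (4 * c + 33) := Nat.pow_le_pow_right (by omega) (by omega)

theorem t_corq (hLIN : LINStmt) (hPWB : PWBStmt) (hKAP : KAPStmt) (hWEX : WEXStmt)
    (hMWK : MWKStmt) (hHIT : HITStmt) (hENE : ENEStmt) (hSCA : SCAStmt)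
    (hGRD : GRDStmt) (hEXT : EXTStmt) : CORQStmt := by
  intro k c q hk1 hq
  obtain ⟨M, hM⟩ : ∃ M : ℕ, M = (k + 1) * (c + 6) := ⟨_, rfl⟩
  rw [← hM] at hq ⊢
  have hM6 : 6 ≤ M := by
    rw [hM]
    calc 6 = 1 * 6 := by norm_num
      _ ≤ (k + 1) * (c + 6) := Nat.mul_le_mul (by omega) (by omega)
  intro V _ _ P π hC hP hratio hJ
  have hJ' : ∃ J : ℕ, kap P π (M ^ J) < (M : ℝ) ^ (c + 4) * kap P π (M ^ (J + 1)) := hJ
  obtain ⟨hbn1, hbn2, hq1⟩ := corq_num k c q M hM hk1 hq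
  have hq1r : (1 : ℝ) ≤ q := by exact_mod_cast hq1
  have hqr0 : (0 : ℝ) < q := by linarith
  have hMr : (1 : ℝ) ≤ M := by exact_mod_cast (by omega : 1 ≤ M)
  have hMr0 : (0 : ℝ) < M := by linarith
  have hb₁ : (k : ℝ) ^ 2 * ((c : ℝ) + 3) ^ 2 * (M : ℝ) ^ (c + 4) * 4 ≤ q := by
    exact_mod_cast hbn1
  have hb₂ : (4 * (k : ℝ) ^ 4 + k) * (8 * ((1 + (M : ℝ) ^ (3 * c + 16)) *
      (4 * (k : ℝ) ^ 2 * ((c : ℝ) + 3) ^ 2 * (M : ℝ) ^ (c + 4)))) * 4 ≤ q := by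
    exact_mod_cast hbn2
  obtain ⟨hp1, hp2, hp3, hp4, hp5, hp6, hp7⟩ := hPWB V P π hC
  obtain ⟨hk1', hk2, hk3, hk4, hk5⟩ := hKAP V P π hC
  -- minimal flat scale
  obtain ⟨J, hJf, hJm⟩ : ∃ J : ℕ, kap P π (M ^ J) < (M : ℝ) ^ (c + 4) * kap P π (M ^ (J + 1)) ∧
      ∀ l, l < J → (M : ℝ) ^ (c + 4) * kap P π (M ^ (l + 1)) ≤ kap P π (M ^ l) :=
    ⟨Nat.find hJ', Nat.find_spec hJ', fun l hl => not_lt.mp (Nat.find_min hJ' hl)⟩
  obtain ⟨K, hK⟩ : ∃ K : ℝ, K = (M : ℝ) ^ (c + 4) := ⟨_, rfl⟩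
  have hK0 : 0 < K := by rw [hK]; positivity
  obtain ⟨t, ht⟩ : ∃ t : ℕ, t = M ^ J := ⟨_, rfl⟩
  have ht1 : 1 ≤ t := by rw [ht]; exact Nat.one_le_pow _ _ (by omega)
  have hT : M ^ (J + 1) = (k + 1) * (c + 6) * t := by rw [ht, ← hM, pow_succ]; ring
  obtain ⟨τ, hτ⟩ : ∃ τ : ℝ, τ = kap P π t := ⟨_, rfl⟩
  have hτ0 : 0 < τ := by
    have h1 : 0 < kap P π (M ^ (J + 1)) := by
      have h2 : 0 < (M : ℝ) ^ (c + 4) * kap P π (M ^ (J + 1)) :=
        lt_of_le_of_lt (hk1' _) hJf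
      exact (mul_pos_iff_of_pos_left (by positivity)).mp h2
    rw [hτ, ht]
    exact lt_of_lt_of_le h1 (hk5 _ _ (Nat.pow_le_pow_right (by omega) (by omega)))
  obtain ⟨v, z, hvz⟩ := hk4 (M ^ (J + 1))
  have hvz' : τ * π z < K * pw P ((k + 1) * (c + 6) * t) v z := by
    rw [← hT, hvz, hK, hτ, ht, ← mul_assoc]
    exact mul_lt_mul_of_pos_right hJf (hC.pos z)
  -- the scale of the records
  obtain ⟨l, hl1, hl2⟩ : ∃ l : ℕ, M ^ l ≤ q ∧ q < M ^ (l + 1) := by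
    refine ⟨Nat.log M q, Nat.pow_log_le_self M (by omega), Nat.lt_pow_succ_log_self (by omega) q⟩
  obtain ⟨s₀, hs₀⟩ : ∃ s₀ : ℕ, s₀ = M ^ l := ⟨_, rfl⟩
  have hs₀1 : 1 ≤ s₀ := by rw [hs₀]; exact Nat.one_le_pow _ _ (by omega)
  have hs₀q : s₀ ≤ q := by rw [hs₀]; exact hl1
  have hqs₀ : q / M ≤ s₀ := by
    have : q / M < M ^ l := by
      rw [Nat.div_lt_iff_lt_mul (by omega)]
      rwa [pow_succ] at hl2
    rw [hs₀]; exact this.le
  obtain ⟨R, hR⟩ : ∃ R : ℕ, R = min t s₀ := ⟨_, rfl⟩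
  have hR1 : 1 ≤ R := by rw [hR]; exact le_min ht1 hs₀1
  have hRt : R ≤ t := by rw [hR]; exact min_le_left _ _
  have hRs : R ≤ s₀ := by rw [hR]; exact min_le_right _ _
  obtain ⟨X, hX⟩ : ∃ X : ℕ, X = (c + 2) * R + 1 := ⟨_, rfl⟩
  have hX1 : 1 ≤ X := by omega
  have hXq : X ≤ (c + 3) * q := by
    rw [hX]
    have h1 : (c + 2) * R ≤ (c + 2) * q := Nat.mul_le_mul_left _ (le_trans hRs hs₀q)
    calc (c + 2) * R + 1 ≤ (c + 2) * q + q := by omega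
      _ = (c + 3) * q := by ring
  obtain ⟨hn1, hn2⟩ := cor_num k c q X (M : ℝ) hMr hk1 hq1 hX1 hXq hb₁ hb₂
  obtain ⟨ε, hε⟩ : ∃ ε : ℝ, ε = 1 / (4 * (k : ℝ) ^ 2 * (X : ℝ) ^ 2 * (M : ℝ) ^ (c + 4)) :=
    ⟨_, rfl⟩
  rw [← hε] at hn1 hn2
  have hXr : (0 : ℝ) < X := by exact_mod_cast hX1
  have hkr : (0 : ℝ) < k := by exact_mod_cast hk1
  have hε0 : 0 < ε := by rw [hε]; positivity
  obtain ⟨D, hD⟩ : ∃ D : ℝ, D = (q : ℝ) ^ 2 := ⟨_, rfl⟩
  have hD1 : 1 ≤ D := by rw [hD]; exact one_le_pow₀ hq1r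
  obtain ⟨c₁, hc₁⟩ : ∃ c₁ : ℝ, c₁ = 1 / (q : ℝ) ^ 16 := ⟨_, rfl⟩
  have hc₁0 : 0 ≤ c₁ := by rw [hc₁]; positivity
  have h1 : ∀ n, 1 ≤ n → ∀ x y, pw P n x y ≤ c₁ :=
    hp6 c₁ (fun u w => by rw [hc₁]; exact hP u w)
  have h2 : ∀ n, t ≤ n → ∀ x y, pw P n x y ≤ τ * π y := by
    intro n hn x y
    refine le_trans (hk2 n x y) (mul_le_mul_of_nonneg_right ?_ (hC.pos y).le)
    rw [hτ]
    exact hk5 t n hn
  have hratio' : ∀ u w, π u ≤ D ^ c * π w := by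
    intro u w
    refine le_trans (hratio u w) (mul_le_mul_of_nonneg_right ?_ (hC.pos w).le)
    rw [hD, ← pow_mul]
    exact pow_le_pow_right₀ hq1r (by omega)
  obtain ⟨y, θ, hy, hyθ⟩ := hMWK V P π hC k c R t D c₁ τ ε K v z hD1 hratio' hR1 hRt hc₁0 hτ0 hε0 hK0
    h1 h2 hvz' (by
      rw [hX] at hn1
      rw [hc₁, hK]
      exact hn1)
  -- largest value of the measure
  obtain ⟨m₀, hm₀, hm₁⟩ : ∃ m₀ : ℝ, (∀ u, π u ≤ m₀) ∧ ∀ w, m₀ ≤ (q : ℝ) ^ c * π w := by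
    obtain ⟨u, hu⟩ := Finite.exists_max π
    exact ⟨π u, hu, fun w => hratio u w⟩
  have hm0 : 0 ≤ m₀ := le_trans (hC.pos v).le (hm₀ v)
  have hkm : kap P π 1 * m₀ ≤ (q : ℝ) ^ c / (q : ℝ) ^ 16 := by
    obtain ⟨u, w, huw⟩ := hk4 1
    rw [hp2] at huw
    have h3 : kap P π 1 * m₀ ≤ kap P π 1 * ((q : ℝ) ^ c * π w) :=
      mul_le_mul_of_nonneg_left (hm₁ w) (hk1' 1)
    have h4 : kap P π 1 * ((q : ℝ) ^ c * π w) = (q : ℝ) ^ c * P u w := by rw [huw]; ring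
    rw [h4] at h3
    refine le_trans h3 ?_
    rw [div_eq_mul_one_div]
    exact mul_le_mul_of_nonneg_left (hP u w) (by positivity)
  obtain ⟨b, hb⟩ : ∃ b : ℕ → ℝ, b = fun r => if r ≤ s₀ then D * c₁ / ε else
      kap P π r * m₀ / ε := ⟨_, rfl⟩
  have hbs : ∀ r, r ≤ s₀ → ε * b r = D * c₁ := by
    intro r hr
    rw [hb]
    simp only [hr, if_true]
    field_simp
  have hbl : ∀ r, ¬ r ≤ s₀ → ε * b r = kap P π r * m₀ := by
    intro r hr
    rw [hb]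
    simp only [hr, if_false]
    field_simp
  have hb0 : ∀ r, 0 ≤ b r := by
    intro r
    rw [hb]
    dsimp only
    split_ifs
    · exact div_nonneg (mul_nonneg (by linarith) hc₁0) hε0.le
    · exact div_nonneg (mul_nonneg (hk1' r) hm0) hε0.le
  refine cor_walks hLIN hWEX hHIT hENE hGRD hEXT P π hC k R t (M ^ (J + 1)) D c₁ τ ε b y θ hy hD1 hR1
    hRt hc₁0 hτ0 hε0 hb0 h1 h2 ?_ ?_ ?_ ?_ ?_
  · intro i j hij
    rw [hT]
    exact hyθ i j hij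
  · intro r hr s hrs x y'
    by_cases h : r ≤ s₀
    · rw [hbs r h]
      have h3 : c₁ ≤ D * c₁ := le_mul_of_one_le_left hc₁0 hD1
      exact le_trans (h1 s (by omega) x y') h3
    · rw [hbl r h]
      refine le_trans (hk2 s x y') ?_
      exact mul_le_mul (hk5 r s hrs) (hm₀ y') (hC.pos y').le (hk1' r)
  · intro r _ hr
    rw [hbs r (le_trans hr hRs)]
  · intro r hr hrt x y'
    have h : ¬ r ≤ s₀ := by
      intro h'
      have : R = s₀ ∨ R = t := by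
        rw [hR]
        rcases min_choice t s₀ with h'' | h''
        · exact Or.inr h''
        · exact Or.inl h''
      omega
    rw [hbl r h]
    calc pw P r x y' * π x ≤ (kap P π r * π y') * m₀ :=
          mul_le_mul (hk2 r x y') (hm₀ x) (hC.pos x).le
            (mul_nonneg (hk1' r) (hC.pos y').le)
      _ = kap P π r * m₀ * π y' := by ring
  · apply hn2
    -- the sum of r * b r
    rw [le_div_iff₀ hε0]
    have hsplit : (∑ r ∈ range (M ^ (J + 1)), (r : ℝ) * b r) * ε =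
        ∑ r ∈ range (M ^ (J + 1)), (r : ℝ) * (ε * b r) := by
      rw [sum_mul]
      apply sum_congr rfl
      intro r _
      ring
    rw [hsplit]
    have h3 : ∑ r ∈ range (M ^ (J + 1)), (r : ℝ) * (ε * b r) ≤
        ∑ r ∈ range (q + 1), (if r ≤ s₀ then (r : ℝ) * (D * c₁) else 0) +
        ∑ r ∈ (range (M ^ (J + 1))).filter (fun r => q / M < r), (r : ℝ) * (kap P π r * m₀) := by
      have h4 : ∑ r ∈ range (M ^ (J + 1)), (r : ℝ) * (ε * b r) =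
          ∑ r ∈ range (M ^ (J + 1)), (if r ≤ s₀ then (r : ℝ) * (D * c₁) else 0) +
          ∑ r ∈ range (M ^ (J + 1)), (if r ≤ s₀ then 0 else (r : ℝ) * (kap P π r * m₀)) := by
        rw [← sum_add_distrib]
        apply sum_congr rfl
        intro r _
        by_cases h : r ≤ s₀
        · rw [hbs r h]; simp only [h, if_true]; ring
        · rw [hbl r h]; simp only [h, if_false]; ring
      rw [h4]
      apply add_le_add
      · rw [← sum_filter, ← sum_filter]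
        apply sum_le_sum_of_subset_of_nonneg
        · intro r hr
          rw [mem_filter] at hr ⊢
          exact ⟨mem_range.mpr (by omega), hr.2⟩
        · intro r _ _
          have hDc : 0 ≤ D * c₁ := mul_nonneg (by linarith) hc₁0
          exact mul_nonneg (Nat.cast_nonneg r) hDc
      · rw [sum_filter]
        apply sum_le_sum
        intro r _
        have hnn' : 0 ≤ (r : ℝ) * (kap P π r * m₀) :=
          mul_nonneg (Nat.cast_nonneg r) (mul_nonneg (hk1' r) hm0)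
        by_cases h : r ≤ s₀
        · simp only [h, if_true]
          split_ifs
          · exact hnn'
          · exact le_refl _
        · have h' : q / M < r := by omega
          simp only [h, h', if_false, if_true]
          exact le_refl _
    refine le_trans h3 ?_
    have h5 := hSCA M c q J (kap P π) m₀ (by omega) hq1 hm0 hk1' hk5 hkm hJm
    have h6 : ∑ r ∈ range (q + 1), (if r ≤ s₀ then (r : ℝ) * (D * c₁) else 0) ≤
        1 / (q : ℝ) ^ 12 := by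
      have h7 : ∀ r ∈ range (q + 1), (if r ≤ s₀ then (r : ℝ) * (D * c₁) else 0) ≤
          (r : ℝ) * (D * c₁) := by
        intro r _
        have hDc : 0 ≤ D * c₁ := mul_nonneg (by linarith) hc₁0
        split_ifs
        · exact le_refl _
        · exact mul_nonneg (Nat.cast_nonneg r) hDc
      refine le_trans (sum_le_sum h7) ?_
      rw [← sum_mul]
      have h8 : ∑ r ∈ range (q + 1), (r : ℝ) ≤ (q : ℝ) ^ 2 := by
        have h9 : (∑ r ∈ range (q + 1), r) * 2 = (q + 1) * q := by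
          rw [sum_range_id_mul_two]; simp
        have h10 : (∑ r ∈ range (q + 1), r) ≤ q ^ 2 := by nlinarith
        calc ∑ r ∈ range (q + 1), (r : ℝ) = ((∑ r ∈ range (q + 1), r : ℕ) : ℝ) := by
              rw [Nat.cast_sum]
          _ ≤ ((q ^ 2 : ℕ) : ℝ) := by exact_mod_cast h10
          _ = (q : ℝ) ^ 2 := by norm_cast
      calc (∑ r ∈ range (q + 1), (r : ℝ)) * (D * c₁) ≤ (q : ℝ) ^ 2 * (D * c₁) :=
            mul_le_mul_of_nonneg_right h8 (mul_nonneg (by linarith) hc₁0)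
        _ = 1 / (q : ℝ) ^ 12 := by
            rw [hD, hc₁]
            field_simp
    calc _ ≤ 1 / (q : ℝ) ^ 12 + (M : ℝ) ^ (3 * c + 16) / (q : ℝ) ^ 12 := add_le_add h6 h5
      _ = (1 + (M : ℝ) ^ (3 * c + 16)) / (q : ℝ) ^ 12 := by rw [add_div]

end Pool.MRW
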