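/-
helper74. MRW, modules EULF, DNSF.
-/
import Pool.Agent.H74.MRW.Def2

set_option autoImplicit false

namespace Pool.MRW

open Finset
open scoped Classical

theorem t_eulf (hE : EULQStmt) (hN : NUMStmt) : EULFStmt := by
  obtain ⟨C, hC⟩ := hN
  refine ⟨C, ?_⟩
  intro k B d hk hB hd V _ G f h0 h1 h2 h3 h4 h5
  obtain ⟨q, hq1, hq2, hq3⟩ := hC k B d hk hB hd
  have hd1 : 1 ≤ d := le_trans (Nat.one_le_pow _ _ (by omega)) hd
  refine hE k (32 * (B + 1)) q d hk hq1 hq2 V G f h0 h1 h2 h3 h4 ?_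
  intro u w hw
  refine le_trans (h5 u w hw) (mul_le_mul_of_nonneg_right ?_ hw.le)
  have h6 : d ^ B ≤ q ^ (32 * (B + 1)) :=
    le_trans (Nat.pow_le_pow_right hd1 (by omega)) hq3
  exact_mod_cast h6

theorem t_dnsf (hD : DNSQStmt) (hN : NUMStmt) : DNSFStmt := by
  obtain ⟨C, hC⟩ := hN
  refine ⟨C, ?_⟩
  intro k B d hk hB hd V _ _ G h1 h2
  obtain ⟨q, hq1, hq2, hq3⟩ := hC k B d hk hB hd
  refine hD k (32 * (B + 1)) q d hk hq1 hq2 V G h1 ?_
  calc d * Fintype.card V ≤ d * d ^ B := Nat.mul_le_mul_left _ h2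
    _ = d ^ (B + 1) := by ring
    _ ≤ q ^ (32 * (B + 1)) := hq3

end Pool.MRW
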