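/-
helper74. MRW: assembly of all modules (balanced arc weights).
-/
import Pool.Agent.H74.MRW.CORQ
import Pool.Agent.H74.MRW.FIN
import Pool.Agent.H26.MRW.LIN
import Pool.Agent.H26.MRW.SPL
import Pool.Agent.H26.MRW.REC
import Pool.Agent.H26.MRW.ENE
import Pool.Agent.H26.MRW.SCA
import Pool.Agent.H20.MRW.PWB
import Pool.Agent.H20.MRW.KAP
import Pool.Agent.H20.MRW.STA
import Pool.Agent.H20.MRW.NUM
import Pool.Agent.H76.MRW.BAD
import Pool.Agent.H40.MRW.MWK
import Pool.Agent.H9.MRW.GRD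
import Pool.Agent.H50.MRW.EXT
import Pool.Agent.H61.MRW.TTM

set_option autoImplicit false

namespace Pool.MRW

theorem a_kap : KAPStmt := t_kap t_pwb

theorem a_mwk : MWKStmt :=
  t_mwk t_lin t_wex t_rec (t_bad t_lin t_spl t_pwb) (t_eqp t_lin t_spl t_pwb)

theorem a_corq : CORQStmt :=
  t_corq t_lin t_pwb a_kap t_wex a_mwk (t_hit t_lin t_spl t_pwb) t_ene t_sca t_grd t_ext

theorem a_eulf : EULFStmt := t_eulf (t_eulq a_corq t_ttm t_pwb a_kap) t_num

end Pool.MRW
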